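import Pool.Graph.R_pool_sql_team_seeded_3997aac3.Results.MP_e27144_an.AffineMaps
import Pool.Graph.R_pool_sql_team_seeded_843ab51a.V1194.TR.Bad

/-!
Linear relations between the images of densities under the maps `x ↦ M x + θ`.
-/

set_option autoImplicit false

open MeasureTheory Filter Topology Set
open scoped ENNReal

namespace Pool.Agent.H50.Sep

/-- not a torsion point of order prime to six, except zero -/
def Far (t : UnitAddCircle) : Prop := ∀ s : ℕ, 1 ≤ s → s.Coprime 6 → s • t ≠ 0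

lemma integrable_mulb {μ : Measure UnitAddCircle} {g : UnitAddCircle → ℂ} (hg : Measurable g)
    {C : ℝ} (hC : ∀ x, ‖g x‖ ≤ C)
    {H : UnitAddCircle → ℂ} (hH : Integrable H μ) : Integrable (fun x => H x * g x) μ := by
  refine Integrable.mul_bdd (c := C) hH hg.aestronglyMeasurable (Eventually.of_forall hC)

variable {μ : Measure UnitAddCircle} [IsProbabilityMeasure μ]

lemma translate_sing (h2 : MeasurePreserving (fun x : UnitAddCircle => 2 • x) μ μ)
    (h3 : MeasurePreserving (fun x : UnitAddCircle => 3 • x) μ μ) (hs : μ ⟂ₘ volume)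
    {t : UnitAddCircle} (ht : Far t) : μ.map (fun x => x + t) ⟂ₘ μ := by
  refine (Pool.Agent.Results.MP_e27144_an.AffineMaps.result 2 3 Nat.prime_two Nat.prime_three
    (by norm_num)).1 μ μ inferInstance inferInstance ⟨h2, h3⟩ ⟨h2, h3⟩ (Or.inl hs) {t}
    (countable_singleton t) ?_ (fun x => x + t) (measurable_add_const t) ?_
  · intro t' ht' s hs1 hs2
    rw [mem_singleton_iff] at ht'
    rw [ht']
    exact ht s hs1 hs2
  · exact Eventually.of_forall fun x => ⟨1, 1, one_ne_zero, one_ne_zero, t, mem_singleton t, by simp⟩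

lemma exists_sep (h2 : MeasurePreserving (fun x : UnitAddCircle => 2 • x) μ μ)
    (h3 : MeasurePreserving (fun x : UnitAddCircle => 3 • x) μ μ) (hs : μ ⟂ₘ volume)
    {D : Set UnitAddCircle} (hD : D.Countable) (hDt : ∀ t ∈ D, Far t) :
    ∃ E : Set UnitAddCircle, MeasurableSet E ∧ μ Eᶜ = 0 ∧ ∀ᵐ x ∂μ, ∀ t ∈ D, x + t ∉ E := by
  have h : ∀ t : D, ∃ S : Set UnitAddCircle, MeasurableSet S ∧ μ Sᶜ = 0 ∧
      ∀ᵐ x ∂μ, x + (t : UnitAddCircle) ∉ S := by
    rintro ⟨t, ht⟩
    obtain ⟨S, hS, hS1, hS2⟩ := translate_sing h2 h3 hs (hDt t ht)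
    refine ⟨S, hS, hS2, ?_⟩
    rw [Measure.map_apply (measurable_add_const t) hS] at hS1
    rw [ae_iff]
    simp only [not_not]
    exact hS1
  choose S hS1 hS2 hS3 using h
  have : Countable D := hD.to_subtype
  refine ⟨⋂ t, S t, MeasurableSet.iInter hS1, ?_, ?_⟩
  · rw [compl_iInter, measure_iUnion_null_iff]
    exact hS2
  · have h4 : ∀ᵐ x ∂μ, ∀ t : D, x + (t : UnitAddCircle) ∉ S t := ae_all_iff.2 hS3
    filter_upwards [h4] with x hx t ht hxt
    exact hx ⟨t, ht⟩ (mem_iInter.1 hxt ⟨t, ht⟩)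

open Pool.Agent.H847R3.XpXq (sec meas_sec)
open Pool.Agent.W764.FB (hh)
open Pool.Agent.V11299.FG (smul_sec smul_hh_one sum_sec)

/-- the number of points of `F` over `y` -/
noncomputable def cnt (M : ℕ) (F : Set UnitAddCircle) (y : UnitAddCircle) : ℝ :=
  ∑ j ∈ Finset.range M, F.indicator (fun _ => (1 : ℝ)) (sec (M : ℤ) y + hh M 1 j)

lemma measurable_cnt (M : ℕ) {F : Set UnitAddCircle} (hF : MeasurableSet F) : Measurable (cnt M F) := by
  unfold cnt
  refine Finset.measurable_fun_sum _ fun j _ => ?_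
  exact (measurable_const.indicator hF).comp ((meas_sec _).add_const _)

lemma cnt_nonneg (M : ℕ) (F : Set UnitAddCircle) (y : UnitAddCircle) : 0 ≤ cnt M F y :=
  Finset.sum_nonneg fun j _ => indicator_nonneg (fun _ _ => zero_le_one) _

lemma cnt_le (M : ℕ) (F : Set UnitAddCircle) (y : UnitAddCircle) : cnt M F y ≤ M := by
  unfold cnt
  have h : ∀ j ∈ Finset.range M, F.indicator (fun _ => (1 : ℝ)) (sec (M : ℤ) y + hh M 1 j) ≤ 1 :=
    fun j _ => indicator_apply_le' (fun _ => le_rfl) (fun _ => zero_le_one)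
  refine (Finset.sum_le_sum h).trans ?_
  simp

lemma cnt_ne_zero {M : ℕ} (hM : 1 ≤ M) {F : Set UnitAddCircle} {y : UnitAddCircle}
    (h : cnt M F y ≠ 0) : ∃ x ∈ F, M • x = y := by
  unfold cnt at h
  obtain ⟨j, hj, hj2⟩ := Finset.exists_ne_zero_of_sum_ne_zero h
  refine ⟨sec (M : ℤ) y + hh M 1 j, mem_of_indicator_ne_zero hj2, ?_⟩
  rw [smul_add, smul_sec hM, smul_hh_one hM, add_zero]

lemma cnt_smul {M : ℕ} (hM : 1 ≤ M) (F : Set UnitAddCircle) (x : UnitAddCircle) :
    cnt M F (M • x) = F.indicator (fun _ => (1 : ℝ)) x +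
      ∑ j ∈ (Finset.range M).erase 0, F.indicator (fun _ => (1 : ℝ)) (x + hh M 1 j) := by
  unfold cnt
  rw [sum_sec hM (F.indicator (fun _ => (1 : ℝ))) x, ← Finset.add_sum_erase _ _ (Finset.mem_range.2 hM)]
  congr 2
  unfold hh
  simp

lemma hh_far {M : ℕ} (hM : ∃ i j : ℕ, M = 2 ^ i * 3 ^ j) {j : ℕ} (hj : j < M) (hj0 : j ≠ 0) :
    Far (hh M 1 j) := by
  intro s hs1 hs2 h0
  have hM1 : 0 < M := by omega
  have hMR : (M : ℝ) ≠ 0 := by exact_mod_cast hM1.ne'
  unfold hh at h0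
  rw [← AddCircle.coe_nsmul, AddCircle.coe_eq_zero_iff] at h0
  obtain ⟨n, hn⟩ := h0
  have h1 : (s : ℤ) * j = n * M := by
    have : (s : ℝ) * j = n * M := by
      have h2 : (n : ℝ) = s * (j / M) := by simpa using hn
      rw [h2]; field_simp
    exact_mod_cast this
  have h2 : (M : ℤ) ∣ (s : ℤ) * j := ⟨n, by rw [h1]; ring⟩
  have h3 : M ∣ s * j := by exact_mod_cast h2
  have hco : Nat.Coprime M s := by
    obtain ⟨i, k, rfl⟩ := hM
    have h6 : s.Coprime (2 * 3) := hs2
    have hs2' : Nat.Coprime 2 s := (Nat.Coprime.coprime_mul_right_right h6).symm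
    have hs3' : Nat.Coprime 3 s := (Nat.Coprime.coprime_mul_left_right h6).symm
    exact Nat.Coprime.mul_left (Nat.Coprime.pow_left i hs2') (Nat.Coprime.pow_left k hs3')
  have h4 : M ∣ j := hco.dvd_of_dvd_mul_left h3
  exact absurd (Nat.le_of_dvd (Nat.pos_of_ne_zero hj0) h4) (by omega)


/-- **Relations between densities.** -/
theorem rel_zero (h2 : MeasurePreserving (fun x : UnitAddCircle => 2 • x) μ μ)
    (h3 : MeasurePreserving (fun x : UnitAddCircle => 3 • x) μ μ) (hs : μ ⟂ₘ volume)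
    {M : ℕ} (hM : ∃ i j : ℕ, M = 2 ^ i * 3 ^ j) (Θ : Finset UnitAddCircle)
    (hΘ : ∀ θ ∈ Θ, ∀ θ' ∈ Θ, θ ≠ θ' → Far (θ - θ')) (g : UnitAddCircle → UnitAddCircle → ℂ)
    (hg : ∀ θ, Measurable (g θ)) {C : ℝ} (hC : ∀ θ x, ‖g θ x‖ ≤ C)
    (h : ∀ ψ : C(UnitAddCircle, ℂ), ∑ θ ∈ Θ, ∫ x, ψ (M • x + θ) * g θ x ∂μ = 0) :
    ∀ θ ∈ Θ, g θ =ᵐ[μ] 0 := by
  classical
  have hM1 : 1 ≤ M := by
    obtain ⟨i, j, rfl⟩ := hM
    exact Nat.one_le_iff_ne_zero.2 (by positivity)
  have hC0 : 0 ≤ C := (norm_nonneg _).trans (hC 0 0)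
  have hfm : ∀ θ : UnitAddCircle, Measurable fun x : UnitAddCircle => M • x + θ := fun θ =>
    (continuous_nsmul M).measurable.add_const θ
  -- extension to bounded Borel functions
  have hB : ∀ H : UnitAddCircle → ℝ, Measurable H → (∃ K : ℝ, ∀ y, ‖H y‖ ≤ K) →
      ∑ θ ∈ Θ, ∫ x, (H (M • x + θ) : ℂ) * g θ x ∂μ = 0 := by
    rintro H hH ⟨K, hK⟩
    set ν : Measure UnitAddCircle := ∑ θ ∈ Θ, μ.map (fun x => M • x + θ) with hν
    have hfin : IsFiniteMeasure ν := by
      rw [hν]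
      have : ∀ θ : UnitAddCircle, IsFiniteMeasure (μ.map (fun x => M • x + θ)) := fun θ =>
        Measure.isFiniteMeasure_map μ _
      infer_instance
    have hHc : Measurable fun y => (H y : ℂ) := Complex.measurable_ofReal.comp hH
    have hHi : Integrable (fun y => (H y : ℂ)) ν := by
      refine Integrable.mono' (integrable_const K) hHc.aestronglyMeasurable
        (Eventually.of_forall fun y => ?_)
      rw [Complex.norm_real]; exact hK y
    have hHK : ∀ θ : UnitAddCircle, Integrable (fun x => (H (M • x + θ) : ℂ)) μ := by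
      intro θ
      refine Integrable.mono' (integrable_const K) (hHc.comp (hfm θ)).aestronglyMeasurable
        (Eventually.of_forall fun y => ?_)
      show ‖(H (M • y + θ) : ℂ)‖ ≤ K
      rw [Complex.norm_real]; exact hK _
    have hle : ∀ ε : ℝ, 0 < ε → ‖∑ θ ∈ Θ, ∫ x, (H (M • x + θ) : ℂ) * g θ x ∂μ‖ ≤ C * ε := by
      intro ε hε
      obtain ⟨ψ, hψ1, hψ2⟩ := hHi.exists_boundedContinuous_integral_sub_le hε
      have h4 := h ψ.toContinuousMap
      have hψi : ∀ θ : UnitAddCircle, Integrable (fun x => ψ (M • x + θ)) μ := by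
        intro θ
        have hc : Continuous fun x : UnitAddCircle => ψ (M • x + θ) := by fun_prop
        exact hc.integrable_of_hasCompactSupport (HasCompactSupport.of_compactSpace _)
      have h5 : ∑ θ ∈ Θ, ∫ x, (H (M • x + θ) : ℂ) * g θ x ∂μ =
          ∑ θ ∈ Θ, ∫ x, ((H (M • x + θ) : ℂ) - ψ (M • x + θ)) * g θ x ∂μ := by
        rw [← sub_zero (∑ θ ∈ Θ, ∫ x, (H (M • x + θ) : ℂ) * g θ x ∂μ), ← h4, ← Finset.sum_sub_distrib]
        refine Finset.sum_congr rfl fun θ _ => ?_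
        rw [← integral_sub]
        · refine integral_congr_ae (Eventually.of_forall fun x => ?_)
          show _ * _ - ψ (M • x + θ) * _ = _
          ring
        · exact integrable_mulb (hg θ) (hC θ) (hHK θ)
        · exact integrable_mulb (hg θ) (hC θ) (hψi θ)
      rw [h5]
      refine (norm_sum_le _ _).trans ?_
      have h6 : ∀ θ ∈ Θ, ‖∫ x, ((H (M • x + θ) : ℂ) - ψ (M • x + θ)) * g θ x ∂μ‖ ≤
          C * ∫ y, ‖(H y : ℂ) - ψ y‖ ∂(μ.map (fun x => M • x + θ)) := by
        intro θ _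
        rw [integral_map (hfm θ).aemeasurable (by
          exact (hHc.sub ψ.continuous.measurable).norm.aestronglyMeasurable), ← integral_const_mul]
        refine (norm_integral_le_integral_norm _).trans ?_
        refine integral_mono ((integrable_mulb (hg θ) (hC θ) ((hHK θ).sub (hψi θ))).norm)
          (((hHK θ).sub (hψi θ)).norm.const_mul C) fun x => ?_
        show ‖((H (M • x + θ) : ℂ) - ψ (M • x + θ)) * g θ x‖ ≤ C * ‖(H (M • x + θ) : ℂ) - ψ (M • x + θ)‖
        rw [norm_mul, mul_comm]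
        exact mul_le_mul_of_nonneg_right (hC θ x) (norm_nonneg _)
      refine (Finset.sum_le_sum h6).trans ?_
      rw [← Finset.mul_sum, ← integral_finsetSum_measure]
      · exact mul_le_mul_of_nonneg_left hψ1 hC0
      · intro θ hθ
        have h7 : Integrable (fun y => ‖(H y : ℂ) - ψ y‖) ν := (hHi.sub hψ2).norm
        refine h7.mono_measure ?_
        rw [hν]
        exact Measure.le_iff.2 fun s _ => by
          rw [Measure.finsetSum_apply]
          exact Finset.single_le_sum (f := fun θ => (μ.map (fun x => M • x + θ)) s) (fun _ _ => zero_le)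
            hθ
    by_contra hne
    have hpos : 0 < ‖∑ θ ∈ Θ, ∫ x, (H (M • x + θ) : ℂ) * g θ x ∂μ‖ := norm_pos_iff.2 hne
    set a := ‖∑ θ ∈ Θ, ∫ x, (H (M • x + θ) : ℂ) * g θ x ∂μ‖ with ha
    have h8 := hle (a / (2 * (C + 1))) (by positivity)
    have h9 : C * (a / (2 * (C + 1))) ≤ a / 2 := by
      rw [mul_div_assoc', div_le_div_iff₀ (by positivity) (by norm_num)]
      nlinarith
    linarith
  -- the set of translations
  set Dset : Set UnitAddCircle := {t | t ≠ 0 ∧ ∃ θ ∈ Θ, ∃ θ' ∈ Θ, M • t = θ - θ'} with hDset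
  have hDfin : Dset.Finite := by
    have h4 : Dset ⊆ ⋃ θ ∈ (Θ : Set UnitAddCircle), ⋃ θ' ∈ (Θ : Set UnitAddCircle),
        {t : UnitAddCircle | M • t = θ - θ'} := by
      rintro t ⟨_, θ, hθ, θ', hθ', ht⟩
      exact mem_biUnion hθ (mem_biUnion hθ' ht)
    refine (Set.Finite.biUnion Θ.finite_toSet fun θ _ => Set.Finite.biUnion Θ.finite_toSet fun θ' _ => ?_).subset h4
    exact Pool.Agent.V11299.FG.finite_fibre hM1 _
  have hDfar : ∀ t ∈ Dset, Far t := by
    rintro t ⟨ht0, θ, hθ, θ', hθ', ht⟩ s hs1 hs2 hst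
    by_cases hθθ : θ = θ'
    · rw [hθθ, sub_self] at ht
      have hco : Nat.Coprime M s := by
        obtain ⟨i, k, rfl⟩ := hM
        have h6 : s.Coprime (2 * 3) := hs2
        have hs2' : Nat.Coprime 2 s := (Nat.Coprime.coprime_mul_right_right h6).symm
        have hs3' : Nat.Coprime 3 s := (Nat.Coprime.coprime_mul_left_right h6).symm
        exact Nat.Coprime.mul_left (Nat.Coprime.pow_left i hs2') (Nat.Coprime.pow_left k hs3')
      have h5 : addOrderOf t ∣ M := addOrderOf_dvd_iff_nsmul_eq_zero.2 ht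
      have h6 : addOrderOf t ∣ s := addOrderOf_dvd_iff_nsmul_eq_zero.2 hst
      have h7 : addOrderOf t = 1 := Nat.dvd_one.1 (hco ▸ Nat.dvd_gcd h5 h6)
      exact ht0 (AddMonoid.addOrderOf_eq_one_iff.1 h7)
    · apply hΘ θ hθ θ' hθ' hθθ s hs1 hs2
      rw [← ht, smul_comm, hst, smul_zero]
  obtain ⟨E, hE1, hE2, hE3⟩ := exists_sep h2 h3 hs hDfin.countable hDfar
  intro θ₀ hθ₀
  have hint : Integrable (g θ₀) μ :=
    Integrable.mono' (integrable_const C) (hg θ₀).aestronglyMeasurable (Eventually.of_forall (hC θ₀))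
  refine ae_eq_zero_of_forall_setIntegral_eq_of_sigmaFinite (fun s _ _ => hint.integrableOn) ?_
  intro F hF _
  set F' := F ∩ E with hF'
  have hF'm : MeasurableSet F' := hF.inter hE1
  have h4 := hB (fun y => cnt M F' (y - θ₀)) ((measurable_cnt M hF'm).comp (measurable_sub_const θ₀))
    ⟨M, fun y => by rw [Real.norm_of_nonneg (cnt_nonneg _ _ _)]; exact cnt_le _ _ _⟩
  rw [← Finset.add_sum_erase _ _ hθ₀] at h4
  have h5 : ∑ θ ∈ Θ.erase θ₀, ∫ x, (cnt M F' (M • x + θ - θ₀) : ℂ) * g θ x ∂μ = 0 := by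
    refine Finset.sum_eq_zero fun θ hθ => ?_
    have hne := Finset.ne_of_mem_erase hθ
    have hθΘ := Finset.mem_of_mem_erase hθ
    refine integral_eq_zero_of_ae ?_
    filter_upwards [hE3] with x hx
    have h6 : cnt M F' (M • x + θ - θ₀) = 0 := by
      by_contra hcn
      obtain ⟨x', hx', hx2⟩ := cnt_ne_zero hM1 hcn
      have h7 : M • (x' - x) = θ - θ₀ := by
        rw [smul_sub, hx2]; abel
      have h8 : x' - x ∈ Dset := by
        refine ⟨?_, θ, hθΘ, θ₀, hθ₀, h7⟩
        intro h0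
        rw [h0, smul_zero] at h7
        exact hne (sub_eq_zero.1 h7.symm)
      apply hx _ h8
      rw [add_sub_cancel]
      exact hx'.2
    rw [h6]
    simp
  rw [h5, add_zero] at h4
  have h6 : ∫ x, (cnt M F' (M • x + θ₀ - θ₀) : ℂ) * g θ₀ x ∂μ = ∫ x in F, g θ₀ x ∂μ := by
    rw [← integral_indicator hF]
    refine integral_congr_ae ?_
    have hE2' : ∀ᵐ x ∂μ, x ∈ E := hE2
    filter_upwards [hE3, hE2'] with x hx hxE
    rw [add_sub_cancel_right, cnt_smul hM1]
    have h7 : ∑ j ∈ (Finset.range M).erase 0, F'.indicator (fun _ => (1 : ℝ)) (x + hh M 1 j) = 0 := by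
      refine Finset.sum_eq_zero fun j hj => ?_
      have hj0 := Finset.ne_of_mem_erase hj
      have hjM := Finset.mem_range.1 (Finset.mem_of_mem_erase hj)
      rw [indicator_of_notMem]
      intro hmem
      refine hx (hh M 1 j) ⟨?_, θ₀, hθ₀, θ₀, hθ₀, ?_⟩ hmem.2
      · intro h0
        have := hh_far hM hjM hj0 1 le_rfl (by norm_num)
        rw [one_smul] at this
        exact this h0
      · rw [smul_hh_one hM1, sub_self]
    rw [h7, add_zero]
    by_cases hxF : x ∈ F
    · have hxF' : x ∈ F' := ⟨hxF, hxE⟩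
      rw [indicator_of_mem hxF', indicator_of_mem hxF]
      simp
    · have hxF' : x ∉ F' := fun h => hxF h.1
      rw [indicator_of_notMem hxF', indicator_of_notMem hxF]
      simp
  rw [← h6]
  exact h4

end Pool.Agent.H50.Sep
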